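import Mathlib

namespace Pool.Agent.Results.MP_70678e_nt.Rho86

/-- The sum of the decimal digits. -/
def s (n : ℕ) : ℕ := (Nat.digits 10 n).sum

/-- `p` is the smallest prime with digit sum `k`, that is `ρ(k) = p`. -/
def IsRho (k p : ℕ) : Prop := IsLeast {q : ℕ | q.Prime ∧ s q = k} p

lemma s_step (n : ℕ) : s n = n % 10 + s (n / 10) := by
  rcases Nat.eq_zero_or_pos n with rfl | h
  · simp [s]
  · unfold s
    rw [Nat.digits_def' (by norm_num) h, List.sum_cons]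

/-- Trial division of `p` by all `m` with `lo ≤ m < lo + 2 ^ k`. -/
def noDiv (p : ℕ) : ℕ → ℕ → Bool
  | 0, lo => p % lo != 0
  | k + 1, lo => noDiv p k lo && noDiv p k (lo + 2 ^ k)

lemma noDiv_spec (p k : ℕ) : ∀ lo, noDiv p k lo = true → ∀ m, lo ≤ m → m < lo + 2 ^ k → ¬ m ∣ p := by
  induction k with
  | zero =>
    intro lo h m h1 h2
    obtain rfl : m = lo := by omega
    simp only [noDiv, bne_iff_ne, ne_eq] at h
    exact fun hd => h (Nat.mod_eq_zero_of_dvd hd)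
  | succ k ih =>
    intro lo h m h1 h2
    simp only [noDiv, Bool.and_eq_true] at h
    rcases Nat.lt_or_ge m (lo + 2 ^ k) with h3 | h3
    · exact ih lo h.1 m h1 h3
    · exact ih _ h.2 m h3 (by rw [pow_succ] at h2; omega)

lemma prime_ex : Nat.Prime 6999999989 := by
  rw [Nat.prime_def_le_sqrt]
  refine ⟨by norm_num, fun m h1 h2 => noDiv_spec _ 17 2 (by decide +kernel) m h1 ?_⟩
  rw [Nat.le_sqrt] at h2
  by_contra h
  have : 2 + 2 ^ 17 ≤ m := by omega
  nlinarith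

lemma step (q : ℕ) : ∃ a r, a ≤ 9 ∧ q = 10 * r + a ∧ s q = a + s r :=
  ⟨q % 10, q / 10, by omega, by omega, s_step q⟩

lemma rho86 : IsRho 86 6999999989 := by
  refine ⟨⟨prime_ex, by simp [s]⟩, ?_⟩
  rintro q ⟨hq, hs⟩
  by_contra hlt
  have h0 : s 0 = 0 := by simp [s]
  have hc : q = 5999999999 ∨ q = 6899999999 ∨ q = 6989999999 ∨ q = 6998999999 ∨ q = 6999899999 ∨
      q = 6999989999 ∨ q = 6999998999 ∨ q = 6999999899 := by
    obtain ⟨a0, q1, h0, g0, s0⟩ := step q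
    obtain ⟨a1, q2, h1, g1, s1⟩ := step q1
    obtain ⟨a2, q3, h2, g2, s2⟩ := step q2
    obtain ⟨a3, q4, h3, g3, s3⟩ := step q3
    obtain ⟨a4, q5, h4, g4, s4⟩ := step q4
    obtain ⟨a5, q6, h5, g5, s5⟩ := step q5
    obtain ⟨a6, q7, h6, g6, s6⟩ := step q6
    obtain ⟨a7, q8, h7, g7, s7⟩ := step q7
    obtain ⟨a8, q9, h8, g8, s8⟩ := step q8
    obtain ⟨a9, q10, h9, g9, s9⟩ := step q9
    have hq10 : q10 = 0 := by omega
    have hs10 : s q10 = 0 := by rw [hq10]; simp [s]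
    have hsum : a0 + a1 + a2 + a3 + a4 + a5 + a6 + a7 + a8 + a9 = 86 := by omega
    have hval : q = a0 + 10 * a1 + 100 * a2 + 1000 * a3 + 10000 * a4 + 100000 * a5 + 1000000 * a6 +
      10000000 * a7 + 100000000 * a8 + 1000000000 * a9 := by omega
    clear s0 s1 s2 s3 s4 s5 s6 s7 s8 s9 g0 g1 g2 g3 g4 g5 g6 g7 g8 g9 hs hs10 hq10 hq
    have ha9 : a9 = 5 ∨ a9 = 6 := by omega
    rcases ha9 with rfl | rfl
    · omega
    · have : a0 = 8 ∨ a1 = 8 ∨ a2 = 8 ∨ a3 = 8 ∨ a4 = 8 ∨ a5 = 8 ∨ a6 = 8 ∨ a7 = 8 ∨ a8 = 8 := by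
        omega
      rcases this with h | h | h | h | h | h | h | h | h <;> omega
  rcases hc with h | h | h | h | h | h | h | h <;> rw [h] at hq <;> norm_num at hq

theorem result :
    IsRho 86 6999999989 ∧
    (¬ ∀ k p : ℕ, 38 < k → IsRho k p → p % 100 = 99) ∧
    (¬ ∀ k p : ℕ, 59 < k → IsRho k p → p % 1000 = 999) := by
  refine ⟨rho86, fun h => ?_, fun h => ?_⟩
  · have := h 86 _ (by norm_num) rho86
    norm_num at this
  · have := h 86 _ (by norm_num) rho86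
    norm_num at this

end Pool.Agent.Results.MP_70678e_nt.Rho86
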